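import Pool.Agent.Q197.SP.R5f6

/-!
# Elements in both halves between consecutive odd squares: the exact entropy budget of the exceptions, for all random sets
-/

set_option autoImplicit false

namespace Pool.Agent.Results.MP_5f6ee5_nt.BudgetOfExceptions

open Finset Filter Pool.Agent.Q197.WN Pool.Agent.Q120.CL Pool.Agent.Q120.HL Pool.Agent.Q120.ET Pool.Agent.Q197.SP.R5f6
open scoped Topology

theorem result (z : ℕ → ℕ) (hs : ∀ η : ℝ, 0 < η → ∀ᶠ k : ℕ in atTop, (z k : ℝ) ≤ η * k) :
    Phase (pr z) W Q E (fun k M => (M : ℝ) * (2 ^ k / k)) := by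
  exact (all_parts z hs).1

end Pool.Agent.Results.MP_5f6ee5_nt.BudgetOfExceptions
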