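import Pool.Agent.Q204.CD.Tup
import Pool.Agent.Q253.Cov.Pig

/-!
# Almost prime tuples between consecutive odd squares: one common difference for many intervals

For every admissible set of shifts `b_1, ..., b_s` (for instance `0, 2`) and any number of intervals `((2k-1)^2, (2k+1)^2)`, coloured in any way,
there is ONE `d` such that each of the intervals contains a progression `x, x + d, ..., x + (L-1) d` of one colour such that all the numbers
`x + l d + b_j` lie in the interval and are almost primes, the number of prime factors of `x + l d + b_j` being independent of `l`.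

The joint sifting system of several windows, with shifts chosen by averaging, is reduced to Szemerédi's theorem relative to sifted sets.
Libraries (starting files): `Y151.HS.flc` (fundamental lemma), `Y843.HS.fin` (Szemerédi relative to sifted sets), `H177R2.SD.Avg`.
-/

set_option autoImplicit false

namespace Pool.Agent.Results.MP_5f6ee5_nt.CommonDifferences

open Finset Filter
open Pool.Agent.Y843.HS (Pr VV Pr_mem Pr_prime)
open Pool.Agent.Q253.Thin (IS)
open Pool.Agent.Q253.Cov (pigeon)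
open Pool.Agent.Q204.CD (tup_sim Zt mem_Zt Adm)

/-- the forms `u j * n + v j` have no fixed prime divisor -/
def Admissible {s : ℕ} (u v : Fin s → ℕ) : Prop := ∀ p : ℕ, p.Prime → ∃ n : ℕ, ∀ j, ¬ p ∣ u j * n + v j

open Classical in
/-- the `n`, `A < n ≤ A + H`, for which all prime factors of all the numbers `u j * n + v j` are larger than `z` -/
noncomputable def Rough {s : ℕ} (z : ℝ) (u v : Fin s → ℕ) (A H : ℕ) : Finset ℕ :=
  (Ioc A (A + H)).filter (fun n => ∀ j, ∀ p : ℕ, p.Prime → p ∣ u j * n + v j → z < p)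

/-- the product over the primes `p ≤ H` of `1 - ρ(p) / p`, `ρ(p)` the number of the residue classes modulo `p` where `p` divides one of
the forms -/
noncomputable def dens {s : ℕ} (u v : Fin s → ℕ) (H : ℕ) : ℝ :=
  ∏ p ∈ (Icc 1 H).filter Nat.Prime, (1 - (((range p).filter (fun c => ∃ j, p ∣ u j * c + v j)).card : ℝ) / p)

lemma dens_eq {s : ℕ} (u v : Fin s → ℕ) (H : ℕ) : dens u v H = VV (Zt u v) 0 H := by
  unfold dens VV
  have h1 : Pr 0 H = (Icc 1 H).filter Nat.Prime := by
    ext p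
    rw [Pr_mem, mem_filter, mem_Icc]
    constructor
    · rintro ⟨⟨a, b⟩, c⟩
      exact ⟨⟨c.pos, b⟩, c⟩
    · rintro ⟨⟨a, b⟩, c⟩
      exact ⟨⟨c.pos, b⟩, c⟩
  rw [h1]
  rfl

lemma rough_eq {s : ℕ} (u v : Fin s → ℕ) (t A H : ℕ) : Rough ((H : ℝ) ^ (1 / (t : ℝ))) u v A H = IS t H A (A + H) (Zt u v) := by
  classical
  unfold Rough IS
  apply filter_congr
  intro n _
  constructor
  · intro h q hq hqH hmem
    rw [mem_Zt hq.pos] at hmem
    obtain ⟨j, hj⟩ := hmem
    have := h j q hq hj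
    linarith
  · intro h j p hp hpd
    by_contra hcon
    push Not at hcon
    apply h p hp hcon
    rw [mem_Zt hp.pos]
    exact ⟨j, hpd⟩

/-- the number of the prime factors -/
lemma length_le {z : ℝ} (hz : 0 ≤ z) : ∀ l : List ℕ, (∀ p ∈ l, z ≤ (p : ℝ)) → z ^ l.length ≤ ((l.prod : ℕ) : ℝ) := by
  intro l
  induction l with
  | nil => intro _; simp
  | cons a l ih =>
    intro h
    rw [List.length_cons, List.prod_cons, pow_succ]
    push_cast
    have h1 := ih (fun p hp => h p (List.mem_cons_of_mem _ hp))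
    have h2 := h a List.mem_cons_self
    calc z ^ l.length * z ≤ ((l.prod : ℕ) : ℝ) * (a : ℝ) := mul_le_mul h1 h2 hz (by positivity)
      _ = _ := by push_cast; ring

/-- **Common differences for almost prime tuples.** (1) For every `s ≥ 1` there are `t ≥ 1` and `c > 0` such that for all `m, k, C`,
`0 < h ≤ 1` and `ε > 0` there is `D` such that for all large `X`, all `H` with `X ^ h ≤ H ≤ X` and any `m` admissible systems
`u i j * n + v i j`, `j < s`, and windows `(A i, A i + H]` with values `≤ X ^ C`: the `n` in the `i`-th window for which the values of the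
`i`-th system have no prime factor `≤ H ^ (1/t)` number at least `c H dens`, and any subsets `S i` of relative density at least `ε` of
these sets contain progressions of length `k` with ONE common difference `d ≤ log ^ D H`. (2) For all `s` and `λ ≥ 1` there is `R` such
that for every admissible set of shifts `b_1, ..., b_s` and all `m, L, c` there is `D` such that for all large `K`, all `k_1, ..., k_m` in
`[K, K ^ λ]` and colourings `χ_i` of the integers with `c` colours there is ONE `d ≤ log ^ D K` such that each interval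
`((2 k_i - 1) ^ 2, (2 k_i + 1) ^ 2)` contains all the numbers `x_i + l d + b_j`, `l < L`, `j ≤ s`, of some `x_i > (2 k_i - 1) ^ 2`, the
`x_i + l d` have one colour, and `x_i + l d + b_j` has `ω_(ij)` prime factors (with multiplicity), `1 ≤ ω_(ij) ≤ R` independent of `l`, all
larger than `K ^ (1/R)`. -/
theorem result :
    (∀ s : ℕ, 1 ≤ s → ∃ t : ℕ, 1 ≤ t ∧ ∃ c : ℝ, 0 < c ∧ ∀ (m k C : ℕ) (h ε : ℝ), 0 < h → h ≤ 1 → 0 < ε →
      ∃ D X₀ : ℕ, ∀ X : ℕ, X₀ ≤ X → ∀ H : ℕ, (X : ℝ) ^ h ≤ H → H ≤ X → ∀ u v : Fin m → Fin s → ℕ, ∀ A : Fin m → ℕ,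
      (∀ i, Admissible (u i) (v i)) → (∀ i j, 1 ≤ u i j ∧ u i j * (A i + H) + v i j ≤ X ^ C) →
      (∀ i, c * (H * dens (u i) (v i) H) ≤ ((Rough ((H : ℝ) ^ (1 / (t : ℝ))) (u i) (v i) (A i) H).card : ℝ)) ∧
      ∀ S : Fin m → Finset ℕ, (∀ i, S i ⊆ Rough ((H : ℝ) ^ (1 / (t : ℝ))) (u i) (v i) (A i) H ∧
        ε * ((Rough ((H : ℝ) ^ (1 / (t : ℝ))) (u i) (v i) (A i) H).card : ℝ) ≤ (S i).card) →
      ∃ d : ℕ, 1 ≤ d ∧ (d : ℝ) ≤ Real.log H ^ D ∧ ∃ x : Fin m → ℕ, ∀ i, ∀ l < k, x i + l * d ∈ S i) ∧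
    (∀ (s : ℕ) (lam : ℝ), 1 ≤ s → 1 ≤ lam → ∃ R : ℕ, ∀ b : Fin s → ℕ, Admissible (fun _ => 1) b → ∀ m L c : ℕ,
      ∃ D K₀ : ℕ, ∀ K : ℕ, K₀ ≤ K → ∀ k : Fin m → ℕ, (∀ i, K ≤ k i ∧ (k i : ℝ) ≤ (K : ℝ) ^ lam) → ∀ χ : Fin m → ℕ → Fin c,
      ∃ d : ℕ, 1 ≤ d ∧ (d : ℝ) ≤ Real.log K ^ D ∧ ∀ i, ∃ x : ℕ, ∃ e : Fin c, ∃ ω : Fin s → ℕ, ∀ l < L,
        (2 * k i - 1) ^ 2 < x + l * d ∧ χ i (x + l * d) = e ∧ ∀ j : Fin s, x + l * d + b j < (2 * k i + 1) ^ 2 ∧
          (x + l * d + b j).primeFactorsList.length = ω j ∧ 1 ≤ ω j ∧ ω j ≤ R ∧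
          ∀ p : ℕ, p.Prime → p ∣ x + l * d + b j → (K : ℝ) ^ (1 / (R : ℝ)) < p) := by
  classical
  refine ⟨?_, ?_⟩
  · intro s hs
    obtain ⟨t, ht, c, hc, H1⟩ := tup_sim s hs
    refine ⟨t, ht, c, hc, ?_⟩
    intro m k C h ε hh0 hh1 hε
    obtain ⟨D, X₀, H2⟩ := H1 m k C h ε hh0 hh1 hε
    refine ⟨D, X₀, ?_⟩
    intro X hX H hH hHX u v A hadm huv
    simp only [dens_eq, rough_eq]
    obtain ⟨H3, H4⟩ := H2 X hX H hH hHX u v A hadm huv
    refine ⟨H3, ?_⟩
    intro S hS
    exact H4 S (fun i => (hS i).1) (fun i => (hS i).2)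
  · intro s lam hs hlam
    obtain ⟨t, ht, c₀, hc₀, H1⟩ := tup_sim s hs
    obtain ⟨C, hC⟩ : ∃ C : ℕ, C = ⌈2 * lam⌉₊ + 4 := ⟨_, rfl⟩
    have hCr : 2 * lam + 4 ≤ C := by
      rw [hC]
      push_cast
      linarith [Nat.le_ceil (2 * lam)]
    have hC1 : 1 ≤ C := by omega
    obtain ⟨R, hR⟩ : ∃ R : ℕ, R = t * C := ⟨_, rfl⟩
    have hR1 : 1 ≤ R := by rw [hR]; exact Nat.mul_pos ht hC1
    have htR : t ≤ R := by rw [hR]; exact Nat.le_mul_of_pos_right _ hC1
    refine ⟨R, ?_⟩
    intro b hb m L c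
    obtain ⟨D, X₀, H2⟩ := H1 m L C 1 (1 / (((R + 1) ^ s * c : ℕ) + 1 : ℝ)) one_pos le_rfl (by positivity)
    obtain ⟨B, hB⟩ : ∃ B : ℕ, ∀ j, b j ≤ B := ⟨∑ j, b j, fun j => single_le_sum (fun _ _ => Nat.zero_le _) (mem_univ j)⟩
    refine ⟨D, max X₀ (B + 3), ?_⟩
    intro K hK k hk χ
    have hKX : X₀ ≤ K := (le_max_left _ _).trans hK
    have hKB : B + 3 ≤ K := (le_max_right _ _).trans hK
    have hK3 : 3 ≤ K := by omega
    have hKr : (3 : ℝ) ≤ K := by exact_mod_cast hK3
    have hK0 : (0 : ℝ) < K := by linarith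
    have hK1 : (1 : ℝ) ≤ K := by linarith
    -- the sizes
    have hsize : ∀ i, (2 * k i + 1) ^ 2 ≤ K ^ C := by
      intro i
      obtain ⟨h1, h2⟩ := hk i
      have h3 : (((2 * k i + 1) ^ 2 : ℕ) : ℝ) ≤ (K : ℝ) ^ C := by
        have h4 : (1 : ℝ) ≤ (K : ℝ) ^ lam := Real.one_le_rpow hK1 (by linarith)
        have h5 : ((K : ℝ) ^ lam) ^ 2 = (K : ℝ) ^ (2 * lam) := by
          rw [← Real.rpow_natCast, ← Real.rpow_mul hK0.le]
          congr 1
          push_cast
          ring
        push_cast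
        calc (2 * (k i : ℝ) + 1) ^ 2 ≤ (3 * (K : ℝ) ^ lam) ^ 2 := pow_le_pow_left₀ (by positivity) (by linarith) 2
          _ = 9 * (K : ℝ) ^ (2 * lam) := by rw [mul_pow, h5]; norm_num
          _ ≤ (K : ℝ) ^ (2 : ℝ) * (K : ℝ) ^ (2 * lam) := by
              apply mul_le_mul_of_nonneg_right _ (by positivity)
              have h6 : (K : ℝ) ^ (2 : ℝ) = (K : ℝ) ^ 2 := by
                rw [← Real.rpow_natCast]
                norm_num
              rw [h6]
              nlinarith
          _ = (K : ℝ) ^ (2 + 2 * lam) := by rw [← Real.rpow_add hK0]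
          _ ≤ (K : ℝ) ^ (C : ℝ) := Real.rpow_le_rpow_of_exponent_le hK1 (by linarith)
          _ = _ := Real.rpow_natCast _ _
      exact_mod_cast h3
    have hsq : ∀ i, (2 * k i + 1) ^ 2 = (2 * k i - 1) ^ 2 + 8 * k i := by
      intro i
      obtain ⟨h1, h2⟩ := hk i
      obtain ⟨q, hq⟩ : ∃ q, k i = q + 1 := ⟨k i - 1, by omega⟩
      rw [hq]
      have e : 2 * (q + 1) - 1 = 2 * q + 1 := by omega
      rw [e]
      ring
    have hval : ∀ i, ∀ j, (fun (_ : Fin m) (_ : Fin s) => (1 : ℕ)) i j * ((2 * k i - 1) ^ 2 + K) + b j ≤ K ^ C := by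
      intro i j
      have h1 := hsq i
      have h2 := hsize i
      have h3 := (hk i).1
      have h4 := hB j
      dsimp only
      omega
    obtain ⟨H3, H4⟩ := H2 K hKX K (by rw [Real.rpow_one]) le_rfl (fun _ _ => 1) (fun _ => b) (fun i => (2 * k i - 1) ^ 2)
      (fun _ => hb) (fun i j => ⟨le_rfl, hval i j⟩)
    simp only [← rough_eq] at H3 H4
    -- the elements
    have hmem : ∀ i, ∀ n ∈ Rough ((K : ℝ) ^ (1 / (t : ℝ))) (fun _ : Fin s => 1) b ((2 * k i - 1) ^ 2) K,
        (2 * k i - 1) ^ 2 < n ∧ ∀ j, n + b j < (2 * k i + 1) ^ 2 ∧ 1 ≤ (n + b j).primeFactorsList.length ∧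
          (n + b j).primeFactorsList.length ≤ R ∧ ∀ p : ℕ, p.Prime → p ∣ n + b j → (K : ℝ) ^ (1 / (R : ℝ)) < p := by
      intro i n hn
      unfold Rough at hn
      rw [mem_filter, mem_Ioc] at hn
      obtain ⟨⟨a1, a2⟩, a3⟩ := hn
      refine ⟨a1, ?_⟩
      intro j
      have b1 : n + b j < (2 * k i + 1) ^ 2 := by
        have h1 := hsq i
        have h3 := (hk i).1
        have h4 := hB j
        omega
      have b2 : ∀ p : ℕ, p.Prime → p ∣ n + b j → (K : ℝ) ^ (1 / (t : ℝ)) < p := by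
        intro p hp hpd
        exact a3 j p hp (by rwa [one_mul])
      have b3 : 2 ≤ n + b j := by
        have h3 := (hk i).1
        have h5 : 2 ≤ 2 * k i - 1 := by omega
        have h6 : 2 ≤ (2 * k i - 1) ^ 2 := by nlinarith
        omega
      refine ⟨b1, ?_, ?_, ?_⟩
      · by_contra hcon
        have h3 : (n + b j).primeFactorsList.length = 0 := by omega
        have h4 := List.length_eq_zero_iff.1 h3
        rw [Nat.primeFactorsList_eq_nil] at h4
        omega
      · have h1 := length_le (z := (K : ℝ) ^ (1 / (t : ℝ))) (by positivity) (n + b j).primeFactorsList (by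
          intro p hp
          exact (b2 p (Nat.prime_of_mem_primeFactorsList hp) (Nat.dvd_of_mem_primeFactorsList hp)).le)
        rw [Nat.prod_primeFactorsList (by omega)] at h1
        have h2 : ((n + b j : ℕ) : ℝ) < (K : ℝ) ^ (C : ℝ) := by
          rw [Real.rpow_natCast]
          exact_mod_cast lt_of_lt_of_le b1 (hsize i)
        have h3 : ((K : ℝ) ^ (1 / (t : ℝ))) ^ (n + b j).primeFactorsList.length =
            (K : ℝ) ^ ((n + b j).primeFactorsList.length / (t : ℝ)) := by
          rw [← Real.rpow_natCast, ← Real.rpow_mul hK0.le]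
          congr 1
          ring
        rw [h3] at h1
        have h4 : ((n + b j).primeFactorsList.length : ℝ) / t < C := by
          by_contra hcon
          push Not at hcon
          have := Real.rpow_le_rpow_of_exponent_le hK1 hcon
          linarith
        have ht0 : (0 : ℝ) < t := by exact_mod_cast ht
        rw [div_lt_iff₀ ht0] at h4
        have h5 : (n + b j).primeFactorsList.length < C * t := by exact_mod_cast h4
        rw [hR, mul_comm]
        exact h5.le
      · intro p hp hpd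
        refine lt_of_le_of_lt ?_ (b2 p hp hpd)
        apply Real.rpow_le_rpow_of_exponent_le hK1
        apply one_div_le_one_div_of_le
        · exact_mod_cast ht
        · exact_mod_cast htR
    -- the colour classes
    have hcls : ∀ i, ∃ se : (Fin s → Fin (R + 1)) × Fin c, 1 / (((R + 1) ^ s * c : ℕ) + 1 : ℝ) *
        ((Rough ((K : ℝ) ^ (1 / (t : ℝ))) (fun _ : Fin s => 1) b ((2 * k i - 1) ^ 2) K).card : ℝ) ≤
        (((Rough ((K : ℝ) ^ (1 / (t : ℝ))) (fun _ : Fin s => 1) b ((2 * k i - 1) ^ 2) K).filter (fun n =>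
          ((fun j => (⟨min (n + b j).primeFactorsList.length R, by omega⟩ : Fin (R + 1))), χ i n) = se)).card : ℝ) := by
      intro i
      have hc0 : 0 < c := by
        have := (χ i 0).2
        omega
      set G := Rough ((K : ℝ) ^ (1 / (t : ℝ))) (fun _ : Fin s => 1) b ((2 * k i - 1) ^ 2) K with hG
      obtain ⟨se, hse, hcard⟩ := pigeon G (univ : Finset ((Fin s → Fin (R + 1)) × Fin c))
        (fun n => ((fun j => (⟨min (n + b j).primeFactorsList.length R, by omega⟩ : Fin (R + 1))), χ i n))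
        (fun n _ => mem_univ _) (by
          refine ⟨(fun _ => 0, ⟨0, hc0⟩), mem_univ _⟩)
      refine ⟨se, le_trans ?_ hcard⟩
      apply mul_le_mul_of_nonneg_right _ (by positivity)
      have h1 : (univ : Finset ((Fin s → Fin (R + 1)) × Fin c)).card = (R + 1) ^ s * c := by
        rw [card_univ, Fintype.card_prod, Fintype.card_fun, Fintype.card_fin, Fintype.card_fin, Fintype.card_fin]
      rw [h1]
      apply one_div_le_one_div_of_le
      · have : 0 < (R + 1) ^ s * c := Nat.mul_pos (by positivity) hc0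
        exact_mod_cast this
      · linarith
    choose se hse using hcls
    obtain ⟨d, hd1, hd2, x, hx⟩ := H4 (fun i => (Rough ((K : ℝ) ^ (1 / (t : ℝ))) (fun _ : Fin s => 1) b ((2 * k i - 1) ^ 2) K).filter
        (fun n => ((fun j => (⟨min (n + b j).primeFactorsList.length R, by omega⟩ : Fin (R + 1))), χ i n) = se i))
      (fun i => filter_subset _ _) hse
    refine ⟨d, hd1, hd2, ?_⟩
    intro i
    refine ⟨x i, (se i).2, fun j => ((se i).1 j : ℕ), ?_⟩
    intro l hl
    have h3 := hx i l hl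
    rw [mem_filter] at h3
    obtain ⟨h4, h5⟩ := h3
    obtain ⟨a1, a2⟩ := hmem i _ h4
    have h6 : ∀ j, (x i + l * d + b j).primeFactorsList.length = ((se i).1 j : ℕ) := by
      intro j
      have h7 := congrArg (fun w => ((w.1 j : Fin (R + 1)) : ℕ)) h5
      dsimp only at h7
      rw [← h7]
      have := (a2 j).2.2.1
      omega
    refine ⟨a1, congrArg Prod.snd h5, ?_⟩
    intro j
    obtain ⟨c1, c2, c3, c4⟩ := a2 j
    rw [h6 j] at c2 c3
    exact ⟨c1, h6 j, c2, c3, c4⟩

end Pool.Agent.Results.MP_5f6ee5_nt.CommonDifferences
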