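import Pool.Agent.Q117.SI.All3

/-!
# MP_5f6ee5_nt: strings of consecutive almost prime pairs with prescribed distances and classes between consecutive odd squares
-/

set_option autoImplicit false

namespace Pool.Agent.Results.MP_5f6ee5_nt.StringsOfPairs

open Finset Filter
open Pool.Agent.Q117.LF (Ro Ty)
open Pool.Agent.Q117.SI

/-- the integers `r` which are the first of `J + 1` integers `r = m 0 < m 1 < ... < m J ≤ r + L` with `m j ≡ a j (mod q)` such that all the pairs `m j`, `m j + D (τ j)` lie in `(A, B)` and are rough (no prime factor `≤ z`), one of the two elements of the pair with the number `j₁` (the smaller one for `b = 0`, the larger one for `b = 1`) is a product of at most three primes, all `≥ w`, and there is no other pair `s`, `s + D γ` of rough integers, with one of the distances `D γ`, at distance `|s - r| ≤ L` -/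
def Strings {J g : ℕ} (D : Fin g → ℕ) (q : ℕ) (τ : Fin (J + 1) → Fin g) (a : Fin (J + 1) → ℕ) (j₁ : Fin (J + 1)) (b : Fin 2) (w z L : ℝ) (A B : ℕ) : Set ℕ :=
  {r : ℕ | ∃ m : Fin (J + 1) → ℕ, m 0 = r ∧ StrictMono m ∧ (∀ j, A < m j ∧ m j + D (τ j) < B ∧ (m j : ℝ) ≤ r + L) ∧ (∀ j, m j ≡ a j [MOD q]) ∧
    (∀ j, Ro z (m j) ∧ Ro z (m j + D (τ j))) ∧ (m j₁ + b.val * D (τ j₁)).primeFactorsList.length ≤ 3 ∧
    (∀ p : ℕ, p.Prime → p ∣ m j₁ + b.val * D (τ j₁) → w ≤ p) ∧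
    ∀ γ, ∀ s : ℤ, |((s - r : ℤ) : ℝ)| ≤ L → Ro z s → Ro z (s + D γ) → ∃ j, s = m j ∧ γ = τ j}

theorem main (hS : STIc) (J g q : ℕ) (hq : 1 ≤ q) (D : Fin g → ℕ) (hD : ∀ γ, 1 ≤ D γ ∧ Even (D γ)) (hinj : Function.Injective D)
    (τ : Fin (J + 1) → Fin g) (a : Fin (J + 1) → ℕ) (ha : ∀ j, (a j).Coprime q ∧ (a j + D (τ j)).Coprime q) (j₁ : Fin (J + 1)) (b : Fin 2) :
    ∃ t : ℕ, 1 ≤ t ∧ ∃ c : ℝ, 0 < c ∧ ∃ ν : ℝ, 0 < ν ∧ ∃ k₀ : ℕ, ∀ k : ℕ, k₀ ≤ k →
      c * (k / Real.log k ^ 2) ≤ ((Strings D q τ a j₁ b ((k : ℝ) ^ (1 / 8 : ℝ)) ((9 * (k : ℝ) ^ 2) ^ (1 / (t : ℝ))) (ν * Real.log (9 * (k : ℝ) ^ 2) ^ 2)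
        ((2 * k - 1) ^ 2) ((2 * k + 1) ^ 2)).ncard : ℝ) := by
  classical
  have hb01 : b.val = 0 ∨ b.val = 1 := by
    have := b.2
    omega
  obtain ⟨t, ht, c, hc, ν, hν, X0, H⟩ := hS J g q 2 3 (48 / 100) (fun γ => {0, D γ}) hq (by norm_num) (by norm_num) (by norm_num) (by norm_num)
    (fun γ => ⟨card_pair (by have := (hD γ).1; omega), mem_insert_self _ _⟩)
    (fun x y hxy => by
      apply hinj
      have h1 : D x ∈ ({0, D y} : Finset ℕ) := by
        rw [show ({0, D y} : Finset ℕ) = {0, D x} from hxy.symm]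
        exact mem_insert_of_mem (mem_singleton_self _)
      rw [mem_insert, mem_singleton] at h1
      rcases h1 with h1 | h1
      · have := (hD x).1
        omega
      · exact h1) τ a
    (fun j p hp => by
      rcases hp.eq_two_or_odd' with rfl | hodd
      · refine ⟨1, fun h hh => ?_⟩
        rw [mem_insert, mem_singleton] at hh
        rcases hh with rfl | rfl
        · norm_num
        · intro hd
          obtain ⟨u, hu⟩ := (hD (τ j)).2
          omega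
      · by_cases h1 : p ∣ 1 + D (τ j)
        · refine ⟨2, fun h hh => ?_⟩
          rw [mem_insert, mem_singleton] at hh
          have hp3 : 3 ≤ p := by
            obtain ⟨u, hu⟩ := hodd
            have := hp.two_le
            omega
          rcases hh with rfl | rfl
          · intro hd
            have := Nat.le_of_dvd (by norm_num) hd
            omega
          · intro hd
            have h2 : p ∣ 1 := by
              have h3 := Nat.dvd_sub hd h1
              rwa [show 2 + D (τ j) - (1 + D (τ j)) = 1 by omega] at h3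
            exact hp.one_lt.ne' (Nat.dvd_one.1 h2)
        · refine ⟨1, fun h hh => ?_⟩
          rw [mem_insert, mem_singleton] at hh
          rcases hh with rfl | rfl
          · intro hd
            rw [add_zero, Nat.dvd_one] at hd
            exact hp.one_lt.ne' hd
          · exact h1)
    (fun j h hh => by
      rw [mem_insert, mem_singleton] at hh
      rcases hh with rfl | rfl
      · rw [add_zero]; exact (ha j).1
      · exact (ha j).2) j₁ (b.val * D (τ j₁)) (by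
        rcases hb01 with h | h
        · rw [h, zero_mul]; exact mem_insert_self _ _
        · rw [h, one_mul]; exact mem_insert_of_mem (mem_singleton_self _))
  obtain ⟨Dm, hDm⟩ : ∃ Dm : ℕ, ∀ γ, D γ ≤ Dm := ⟨∑ γ, D γ, fun γ => single_le_sum (fun _ _ => Nat.zero_le _) (mem_univ γ)⟩
  have hlog : ∀ᶠ x : ℝ in atTop, ν * Real.log (9 * x ^ 2) ^ 2 + Dm + 2 ≤ x := by
    have h1 : Tendsto (fun x : ℝ => Real.log x ^ 2 / x) atTop (nhds 0) := by
      have h := isLittleO_log_rpow_rpow_atTop (2 : ℝ) (show (0 : ℝ) < 1 by norm_num)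
      have h' := h.tendsto_div_nhds_zero
      refine h'.congr' ?_
      filter_upwards [eventually_ge_atTop (1 : ℝ)] with x hx
      rw [Real.rpow_one, show (2 : ℝ) = ((2 : ℕ) : ℝ) by norm_num, Real.rpow_natCast]
    have h2 : ∀ᶠ x : ℝ in atTop, Real.log x ^ 2 / x ≤ 1 / (50 * ν) := h1.eventually_le_const (by positivity)
    filter_upwards [h2, eventually_ge_atTop (max 9 (2 * ((Dm : ℝ) + 2)))] with x hx hx2
    have hx3 : 9 ≤ x := (le_max_left _ _).trans hx2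
    have hx4 : 2 * ((Dm : ℝ) + 2) ≤ x := (le_max_right _ _).trans hx2
    have hx0 : 0 < x := by linarith
    rw [div_le_div_iff₀ hx0 (by positivity)] at hx
    have h9 : Real.log 9 ≤ Real.log x := Real.log_le_log (by norm_num) hx3
    have h90 : 0 ≤ Real.log 9 := Real.log_nonneg (by norm_num)
    have h4 : Real.log (9 * x ^ 2) ≤ 3 * Real.log x := by
      rw [Real.log_mul (by norm_num) (by positivity), Real.log_pow]
      push_cast
      linarith
    have h5 : 0 ≤ Real.log (9 * x ^ 2) := Real.log_nonneg (by nlinarith)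
    have h6 : Real.log (9 * x ^ 2) ^ 2 ≤ (3 * Real.log x) ^ 2 := by gcongr
    have h7 : ν * Real.log (9 * x ^ 2) ^ 2 ≤ ν * (3 * Real.log x) ^ 2 := mul_le_mul_of_nonneg_left h6 hν.le
    nlinarith
  have hpow : ∀ᶠ x : ℝ in atTop, (9 * x ^ 2) ^ (48 / 100 : ℝ) ≤ 7 * x := by
    filter_upwards [eventually_ge_atTop (1 : ℝ)] with x hx1
    have hx0 : 0 < x := by linarith
    calc (9 * x ^ 2) ^ (48 / 100 : ℝ) ≤ (9 * x ^ 2) ^ (1 / 2 : ℝ) := Real.rpow_le_rpow_of_exponent_le (by nlinarith) (by norm_num)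
      _ = 3 * x := by
        rw [← Real.sqrt_eq_rpow, show (9 : ℝ) * x ^ 2 = (3 * x) ^ 2 by ring, Real.sqrt_sq (by positivity)]
      _ ≤ 7 * x := by linarith
  have hX : ∀ᶠ x : ℝ in atTop, X0 ≤ 9 * x ^ 2 := by
    filter_upwards [eventually_ge_atTop (max 1 X0)] with x hx
    have h1 : 1 ≤ x := (le_max_left _ _).trans hx
    have h2 : X0 ≤ x := (le_max_right _ _).trans hx
    nlinarith
  obtain ⟨x1, hx1⟩ := eventually_atTop.1 (hlog.and (hpow.and (hX.and (eventually_ge_atTop (100 : ℝ)))))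
  obtain ⟨k₀, hk₀⟩ := exists_nat_ge x1
  refine ⟨t, ht, c / 9, by positivity, ν, hν, k₀, ?_⟩
  intro k hk
  have hkx : x1 ≤ (k : ℝ) := hk₀.trans (by exact_mod_cast hk)
  obtain ⟨y1, y2, y3, y4⟩ := hx1 k hkx
  have hk0 : (0 : ℝ) < k := by linarith
  have hk1 : 1 ≤ k := by
    have : (1 : ℝ) ≤ k := by linarith
    exact_mod_cast this
  set A : ℕ := (2 * k - 1) ^ 2 with hA
  have hAr : (A : ℝ) = (2 * k - 1) ^ 2 := by
    rw [hA]
    push_cast [Nat.cast_sub (show 1 ≤ 2 * k by omega)]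
    ring
  have hB : (2 * k + 1) ^ 2 = A + 8 * k := by
    have h1 : (((2 * k + 1) ^ 2 : ℕ) : ℝ) = ((A + 8 * k : ℕ) : ℝ) := by
      push_cast
      rw [hAr]
      ring
    exact_mod_cast h1
  set L : ℝ := ν * Real.log (9 * (k : ℝ) ^ 2) ^ 2 with hL
  have h := H (9 * (k : ℝ) ^ 2) y3 A (7 * k) (by push_cast; exact y2) (by push_cast; rw [hAr]; nlinarith)
  have hlogk : 0 < Real.log k := Real.log_pos (by linarith)
  have hlog2 : Real.log (9 * (k : ℝ) ^ 2) ≤ 3 * Real.log k := by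
    rw [Real.log_mul (by norm_num) (by positivity), Real.log_pow]
    have : Real.log 9 ≤ Real.log k := Real.log_le_log (by norm_num) (by linarith)
    push_cast
    linarith
  have hlog3 : 0 < Real.log (9 * (k : ℝ) ^ 2) := Real.log_pos (by nlinarith)
  have h8 : c / 9 * ((k : ℝ) / Real.log k ^ 2) ≤ c * (((7 * k : ℕ) : ℝ) / Real.log (9 * (k : ℝ) ^ 2) ^ 2) := by
    have h1 : (k : ℝ) / (3 * Real.log k) ^ 2 ≤ ((7 * k : ℕ) : ℝ) / Real.log (9 * (k : ℝ) ^ 2) ^ 2 := by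
      apply div_le_div₀ (by positivity) (by push_cast; linarith) (by positivity)
      gcongr
    have h2 := mul_le_mul_of_nonneg_left h1 hc.le
    have h3 : c * ((k : ℝ) / (3 * Real.log k) ^ 2) = c / 9 * ((k : ℝ) / Real.log k ^ 2) := by
      field_simp
      ring
    linarith
  refine h8.trans (h.trans ?_)
  have hw : (k : ℝ) ^ (1 / 8 : ℝ) ≤ (9 * (k : ℝ) ^ 2) ^ ((48 / 100 : ℝ) / 7) := by
    calc (k : ℝ) ^ (1 / 8 : ℝ) ≤ (k : ℝ) ^ (((2 : ℕ) : ℝ) * ((48 / 100 : ℝ) / 7)) :=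
          Real.rpow_le_rpow_of_exponent_le (by linarith) (by norm_num)
      _ = ((k : ℝ) ^ 2) ^ ((48 / 100 : ℝ) / 7) := by rw [Real.rpow_mul hk0.le, Real.rpow_natCast]
      _ ≤ _ := Real.rpow_le_rpow (by positivity) (by nlinarith) (by norm_num)
  have hTy : ∀ (z : ℝ) (γ : Fin g) (m : ℤ), Ty z {0, D γ} m ↔ Ro z m ∧ Ro z (m + D γ) := by
    intro z γ m
    unfold Ty
    constructor
    · intro h
      have h1 := h 0 (mem_insert_self _ _)
      rw [Nat.cast_zero, add_zero] at h1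
      exact ⟨h1, h (D γ) (mem_insert_of_mem (mem_singleton_self _))⟩
    · rintro ⟨h1, h2⟩ x hx
      rw [mem_insert, mem_singleton] at hx
      rcases hx with rfl | rfl
      · rw [Nat.cast_zero, add_zero]; exact h1
      · exact h2
  have hfin : (Strings D q τ a j₁ b ((k : ℝ) ^ (1 / 8 : ℝ)) ((9 * (k : ℝ) ^ 2) ^ (1 / (t : ℝ))) L A ((2 * k + 1) ^ 2)).Finite := by
    apply (Set.finite_Iic ((2 * k + 1) ^ 2)).subset
    rintro r ⟨m, hm0, _, hm2, _⟩
    rw [Set.mem_Iic, ← hm0]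
    have := (hm2 0).2.1
    omega
  have hsub : StrI q 3 ((9 * (k : ℝ) ^ 2) ^ ((48 / 100 : ℝ) / 7)) ((9 * (k : ℝ) ^ 2) ^ (1 / (t : ℝ))) L
      (fun γ : Fin g => ({0, D γ} : Finset ℕ)) τ a j₁ (b.val * D (τ j₁)) A (7 * k) ⊆
      Strings D q τ a j₁ b ((k : ℝ) ^ (1 / 8 : ℝ)) ((9 * (k : ℝ) ^ 2) ^ (1 / (t : ℝ))) L A ((2 * k + 1) ^ 2) := by
    rintro r ⟨hr, m, hm0, hm1, hm2, hm3, hm4, hm5, hm6, hm7⟩
    rw [mem_Ioc] at hr
    refine ⟨m, hm0, hm1, fun j => ⟨?_, ?_, hm2 j⟩, hm3, fun j => (hTy _ _ _).1 (hm4 j), hm5, fun p hp hd => hw.trans (hm6 p hp hd), ?_⟩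
    · have := hm1.monotone (Fin.zero_le j)
      omega
    · rw [hB]
      have h1 := hm2 j
      have h2 : (r : ℝ) ≤ A + 7 * k := by exact_mod_cast hr.2
      have h3 : (D (τ j) : ℝ) ≤ Dm := by exact_mod_cast hDm (τ j)
      have h4 : (m j : ℝ) + D (τ j) < A + 8 * k := by linarith
      exact_mod_cast h4
    · intro γ s hs hr1 hr2
      exact hm7 γ s hs ((hTy _ _ _).2 ⟨hr1, hr2⟩)
  exact Nat.cast_le.2 (Set.ncard_le_ncard hsub hfin)

theorem result : ∀ (J g q : ℕ), 1 ≤ q → ∀ D : Fin g → ℕ, (∀ γ, 1 ≤ D γ ∧ Even (D γ)) → Function.Injective D →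
    ∀ (τ : Fin (J + 1) → Fin g) (a : Fin (J + 1) → ℕ), (∀ j, (a j).Coprime q ∧ (a j + D (τ j)).Coprime q) → ∀ (j₁ : Fin (J + 1)) (b : Fin 2),
    ∃ t : ℕ, 1 ≤ t ∧ ∃ c : ℝ, 0 < c ∧ ∃ ν : ℝ, 0 < ν ∧ ∃ k₀ : ℕ, ∀ k : ℕ, k₀ ≤ k →
      c * (k / Real.log k ^ 2) ≤ ((Strings D q τ a j₁ b ((k : ℝ) ^ (1 / 8 : ℝ)) ((9 * (k : ℝ) ^ 2) ^ (1 / (t : ℝ))) (ν * Real.log (9 * (k : ℝ) ^ 2) ^ 2)
        ((2 * k - 1) ^ 2) ((2 * k + 1) ^ 2)).ncard : ℝ) :=
  fun J g q hq D hD hinj τ a ha j₁ b => main stiC J g q hq D hD hinj τ a ha j₁ b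

end Pool.Agent.Results.MP_5f6ee5_nt.StringsOfPairs
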